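import Pool.Agent.L5helper4.DL.Sift
import Pool.Agent.W123.RU.Util

/-!
# Tuplets `q r_1 + 1, …, q r_ℓ + 1`: popular differences, uniformly in `r_j ≤ (log x) ^ C`

Let `r_1, …, r_ℓ ≤ (log x) ^ C` be distinct, `𝔖` their singular product and `V = 𝔖 / (log x) ^ ℓ`, the expected
density of the `q` in `[x, 2 x)` for which all `q r_j + 1` are prime. Uniformly in the `r_j`:

1. Let `P` be ANY set of at least `δ x V` integers `q` in `[x, 2 x)` for which no `q r_j + 1` has a prime factor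
`≤ x ^ κ` (for instance all of them are prime). Then for EVERY `D` between `(log x) ^ B` and `x / (log x) ^ B` at least
`c D` of the differences `d ≤ D` have the property that ALL the parts `F ∋ 0` of the progression `0, 1, …, k - 1` occur
in `P` with the difference `d` at least `c x V ^ |F|` times.

2. For at least `c x V` of the `q` in `[x, 2 x)` all `q r_j + 1` have at most `R` prime factors, all of them larger
than `x ^ (1/R)`, and 1. holds for this set of the `q`.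

Method. A sieve majorant in windows of length `D` (`Pool.Agent.Y843.HS`, helper843 and others), the relative Szemerédi
theorem of Conlon, Fox and Zhao (`Pool.Agent.Y727.PSP`, helper727 and others), and, for the differences and the parts
of the progression, `Pool.Agent.L5helper4.DL`; the fundamental lemma of the sieve (`Pool.Agent.X58.IV`, helper58).
-/

set_option autoImplicit false

namespace Pool.Agent.Results.MP_d018b2_nt.PopularDifferences

open Finset Filter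
open Pool.Agent.Y843.HS (Pr VV)
open Pool.Agent.X58.IV (Adm Sift)
open Pool.Agent.L5helper4.DL

/-- the integers `q` with `x ≤ q < 2 x` -/
noncomputable def dyadic (x : ℝ) : Finset ℕ := by
  classical
  exact (range ⌈2 * x⌉₊).filter (fun q => x ≤ (q : ℝ) ∧ (q : ℝ) < 2 * x)

/-- the classes `q` modulo `p` with `p ∣ ∏ (q r_j + 1)`; their number is `w(p)` -/
def classes {ℓ : ℕ} (r : Fin ℓ → ℕ) (p : ℕ) : Finset ℕ :=
  (range p).filter (fun q => p ∣ ∏ j, (q * r j + 1))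

/-- the singular product -/
noncomputable def singular {ℓ : ℕ} (r : Fin ℓ → ℕ) : ℝ :=
  ∏' p : Nat.Primes, ((1 - ((classes r p).card : ℝ) / (p : ℝ)) / (1 - 1 / (p : ℝ)) ^ ℓ)

open Classical in
/-- the `q` in `[x, 2 x)` for which all `q r_j + 1` have at most `R` prime factors (with multiplicity), all of
them larger than `w` -/
noncomputable def almost {ℓ : ℕ} (r : Fin ℓ → ℕ) (R : ℕ) (w x : ℝ) : Finset ℕ :=
  (dyadic x).filter (fun q => ∀ j, (q * r j + 1).primeFactorsList.length ≤ R ∧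
    ∀ p : ℕ, p.Prime → p ∣ q * r j + 1 → w < p)

open Classical in
/-- the number of the elements `q` of `P` such that `q + i d` is in `P` for all `i ∈ F` -/
noncomputable def occurrences (P : Finset ℕ) (F : Finset ℕ) (d : ℕ) : ℕ :=
  (P.filter (fun q => ∀ i ∈ F, q + i * d ∈ P)).card

open Classical in
/-- For all `D` between `(log x) ^ B` and `x / (log x) ^ B` at least `c D` of the `1 ≤ d ≤ D` are such that for
every `F ⊆ {0, …, k - 1}` with `0 ∈ F` at least `c x V ^ |F|` elements `q` of `P` are such that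
`q + i d` is in `P` for all `i ∈ F`. -/
def Popular (k B : ℕ) (c x V : ℝ) (P : Finset ℕ) : Prop :=
  ∀ D : ℕ, Real.log x ^ B ≤ D → D * Real.log x ^ B ≤ x →
    c * D ≤ (((Icc 1 D).filter (fun d => ∀ F ⊆ range k, 0 ∈ F →
      c * x * V ^ F.card ≤ (occurrences P F d : ℝ))).card : ℝ)

/-- distinct positive integers `r_j ≤ M`, no prime divides all the products `∏ (q r_j + 1)` -/
def Good {ℓ : ℕ} (r : Fin ℓ → ℕ) (M : ℝ) : Prop :=
  Function.Injective r ∧ (∀ j, 1 ≤ r j ∧ (r j : ℝ) ≤ M) ∧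
    ∀ p : ℕ, p.Prime → (classes r p).card < p

lemma mem_dyadic {x : ℝ} {q : ℕ} : q ∈ dyadic x ↔ x ≤ (q : ℝ) ∧ (q : ℝ) < 2 * x := by
  classical
  unfold dyadic
  rw [mem_filter, mem_range]
  constructor
  · exact fun h => h.2
  · rintro ⟨h1, h2⟩
    refine ⟨?_, h1, h2⟩
    have : (q : ℝ) < ⌈2 * x⌉₊ := h2.trans_le (Nat.le_ceil _)
    exact_mod_cast this

lemma mod_dvd {ℓ : ℕ} (r : Fin ℓ → ℕ) (p q : ℕ) :
    p ∣ ∏ j, (q % p * r j + 1) ↔ p ∣ ∏ j, (q * r j + 1) := by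
  have h : (∏ j, (q % p * r j + 1)) ≡ (∏ j, (q * r j + 1)) [MOD p] := by
    apply Nat.ModEq.prod
    intro j _
    exact Nat.ModEq.add_right _ (Nat.ModEq.mul_right _ (Nat.mod_modEq q p))
  constructor
  · intro h1
    exact (Nat.modEq_zero_iff_dvd.1 (h.symm.trans (Nat.modEq_zero_iff_dvd.2 h1)))
  · intro h1
    exact (Nat.modEq_zero_iff_dvd.1 (h.trans (Nat.modEq_zero_iff_dvd.2 h1)))

lemma mem_classes {ℓ : ℕ} (r : Fin ℓ → ℕ) {p : ℕ} (hp : p.Prime) (q : ℕ) :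
    q % p ∈ classes r p ↔ ∃ j, p ∣ q * r j + 1 := by
  unfold classes
  rw [mem_filter, mem_range, mod_dvd, hp.prime.dvd_finsetProd_iff]
  simp only [Finset.mem_univ, true_and]
  exact ⟨fun h => h.2, fun h => ⟨Nat.mod_lt _ hp.pos, h⟩⟩

/-- one class for one form -/
lemma one_class {r p a b : ℕ} (hp : p.Prime) (ha : a < p) (hb : b < p) (h1 : p ∣ a * r + 1)
    (h2 : p ∣ b * r + 1) : a = b := by
  have hr : ¬ p ∣ r := by
    intro h
    have h3 : p ∣ 1 := (Nat.dvd_add_right (h.mul_left a)).1 h1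
    exact hp.one_lt.ne' (Nat.dvd_one.1 h3)
  have h4 : (a * r + 1) ≡ (b * r + 1) [MOD p] :=
    (Nat.modEq_zero_iff_dvd.2 h1).trans (Nat.modEq_zero_iff_dvd.2 h2).symm
  have h5 : a * r ≡ b * r [MOD p] := Nat.ModEq.add_right_cancel' 1 h4
  have h6 : a ≡ b [MOD p] := Nat.ModEq.cancel_right_of_coprime
    ((Nat.Prime.coprime_iff_not_dvd hp).2 hr) h5
  exact Nat.ModEq.eq_of_lt_of_lt h6 ha hb

lemma classes_le {ℓ : ℕ} (r : Fin ℓ → ℕ) {p : ℕ} (hp : p.Prime) : (classes r p).card ≤ ℓ := by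
  classical
  have hsub : classes r p ⊆ (univ : Finset (Fin ℓ)).biUnion
      (fun j => (range p).filter (fun q => p ∣ q * r j + 1)) := by
    intro q hq
    have h1 := (mem_filter.1 hq).2
    rw [hp.prime.dvd_finsetProd_iff] at h1
    obtain ⟨j, -, hj⟩ := h1
    rw [mem_biUnion]
    exact ⟨j, Finset.mem_univ j, mem_filter.2 ⟨(mem_filter.1 hq).1, hj⟩⟩
  calc (classes r p).card ≤ ∑ j : Fin ℓ, ((range p).filter (fun q => p ∣ q * r j + 1)).card :=
        (card_le_card hsub).trans card_biUnion_le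
    _ ≤ ∑ _j : Fin ℓ, 1 := by
        apply sum_le_sum
        intro j _
        rw [card_le_one]
        intro a ha b hb
        rw [mem_filter, mem_range] at ha hb
        exact one_class hp ha.1 hb.1 ha.2 hb.2
    _ = ℓ := by simp

/-- exactly `ℓ` classes for the large primes -/
lemma classes_big {ℓ : ℕ} (r : Fin ℓ → ℕ) (hinj : Function.Injective r) {p : ℕ} (hp : p.Prime)
    (hr : ∀ j, 1 ≤ r j ∧ r j < p) : (classes r p).card = ℓ := by
  classical
  apply le_antisymm (classes_le r hp)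
  have hex : ∀ j, ∃ q < p, p ∣ q * r j + 1 := by
    intro j
    have hc : Nat.Coprime (r j) p := by
      rw [Nat.coprime_comm, Nat.Prime.coprime_iff_not_dvd hp]
      exact Nat.not_dvd_of_pos_of_lt (hr j).1 (hr j).2
    obtain ⟨m, hm⟩ := Nat.exists_mul_mod_eq_one_of_coprime hc hp.one_lt
    refine ⟨(m * (p - 1)) % p, Nat.mod_lt _ hp.pos, ?_⟩
    have h1 : r j * m ≡ 1 [MOD p] := by
      rw [Nat.ModEq, hm.2, Nat.mod_eq_of_lt hp.one_lt]
    have h2 : (m * (p - 1)) % p * r j + 1 ≡ 0 [MOD p] := by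
      calc (m * (p - 1)) % p * r j + 1 ≡ m * (p - 1) * r j + 1 [MOD p] :=
            Nat.ModEq.add_right _ (Nat.ModEq.mul_right _ (Nat.mod_modEq _ _))
        _ = r j * m * (p - 1) + 1 := by ring
        _ ≡ 1 * (p - 1) + 1 [MOD p] := Nat.ModEq.add_right _ (Nat.ModEq.mul_right _ h1)
        _ = p := by have := hp.one_lt; omega
        _ ≡ 0 [MOD p] := Nat.modEq_zero_iff_dvd.2 (dvd_refl p)
    exact Nat.modEq_zero_iff_dvd.1 h2
  choose g hg1 hg2 using hex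
  calc ℓ = (univ : Finset (Fin ℓ)).card := by simp
    _ ≤ (classes r p).card := by
        apply card_le_card_of_injOn g
        · intro j _
          unfold classes
          rw [mem_coe, mem_filter, mem_range]
          exact ⟨hg1 j, (hg2 j).trans (dvd_prod_of_mem (fun j' => g j * r j' + 1) (Finset.mem_univ j))⟩
        · intro i _ j _ hij
          apply hinj
          have h1 := hg2 i
          have h2 := hg2 j
          rw [← hij] at h2
          have hg0 : ¬ p ∣ g i := by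
            intro h
            have h3 : p ∣ 1 := (Nat.dvd_add_right (h.mul_right (r i))).1 h1
            exact hp.one_lt.ne' (Nat.dvd_one.1 h3)
          have h4 : (g i * r i + 1) ≡ (g i * r j + 1) [MOD p] :=
            (Nat.modEq_zero_iff_dvd.2 h1).trans (Nat.modEq_zero_iff_dvd.2 h2).symm
          have h5 : g i * r i ≡ g i * r j [MOD p] := Nat.ModEq.add_right_cancel' 1 h4
          have h6 : r i ≡ r j [MOD p] := Nat.ModEq.cancel_left_of_coprime
            ((Nat.Prime.coprime_iff_not_dvd hp).2 hg0) h5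
          exact Nat.ModEq.eq_of_lt_of_lt h6 (hr i).2 (hr j).2

lemma adm {ℓ : ℕ} {r : Fin ℓ → ℕ} {M : ℝ} (h : Good r M) : Adm ℓ (classes r) :=
  fun p hp => ⟨classes_le r hp, h.2.2 p hp, fun _ hc => mem_range.1 (mem_filter.1 hc).1⟩

lemma sing_eq {ℓ : ℕ} (r : Fin ℓ → ℕ) : singular r = ∏' p : Nat.Primes, lf ℓ (classes r) p := rfl

/-- `(log x) ^ C ≤ x ^ κ - 1`, and the logarithms -/
lemma sizes (C : ℕ) (κ : ℝ) (hκ : 0 < κ) (m : ℕ) : ∀ᶠ x : ℝ in atTop,
    Real.log x ^ C < ((⌊(⌈x⌉₊ : ℝ) ^ κ⌋₊ : ℕ) : ℝ) ∧ m ≤ ⌊(⌈x⌉₊ : ℝ) ^ κ⌋₊ ∧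
      κ / 2 * Real.log x ≤ Real.log (⌊(⌈x⌉₊ : ℝ) ^ κ⌋₊ : ℕ) ∧
      Real.log (⌊(⌈x⌉₊ : ℝ) ^ κ⌋₊ : ℕ) ≤ 2 * κ * Real.log x := by
  have t1 : Tendsto (fun x : ℝ => x ^ κ) atTop atTop := tendsto_rpow_atTop hκ
  have t2 : Tendsto (fun x : ℝ => x ^ (κ / 2)) atTop atTop := tendsto_rpow_atTop (by positivity)
  have ev1 : ∀ᶠ x : ℝ in atTop, 2 * Real.log x ^ C ≤ x ^ κ := by
    have h1 : Tendsto (fun x : ℝ => Real.log x ^ (C : ℝ) / x ^ κ) atTop (nhds 0) :=
      (isLittleO_log_rpow_rpow_atTop (C : ℝ) hκ).tendsto_div_nhds_zero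
    filter_upwards [h1.eventually_le_const (show (0 : ℝ) < 1 / 2 by norm_num),
      eventually_gt_atTop (0 : ℝ)] with x hx hx0
    have h6 : 0 < x ^ κ := by positivity
    rw [div_le_div_iff₀ h6 (by norm_num), Real.rpow_natCast] at hx
    linarith
  filter_upwards [ev1, t1.eventually_ge_atTop (2 * m + 4), t2.eventually_ge_atTop 2,
    eventually_gt_atTop (2 : ℝ)] with x h1 h2 h3 h4
  have hx0 : 0 < x := by linarith
  have hc1 : x ≤ (⌈x⌉₊ : ℝ) := Nat.le_ceil x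
  have hc2 : (⌈x⌉₊ : ℝ) < x + 1 := Nat.ceil_lt_add_one hx0.le
  have hc3 : (⌈x⌉₊ : ℝ) ≤ x ^ 2 := by nlinarith
  have hc0 : (0 : ℝ) < (⌈x⌉₊ : ℝ) := by linarith
  have hmono : x ^ κ ≤ (⌈x⌉₊ : ℝ) ^ κ := Real.rpow_le_rpow hx0.le hc1 hκ.le
  have hlt := Nat.lt_floor_add_one ((⌈x⌉₊ : ℝ) ^ κ)
  have hle : ((⌊(⌈x⌉₊ : ℝ) ^ κ⌋₊ : ℕ) : ℝ) ≤ (⌈x⌉₊ : ℝ) ^ κ := Nat.floor_le (by positivity)
  have hm0 : (0 : ℝ) ≤ m := Nat.cast_nonneg m
  have hhalf : x ^ κ / 2 < ((⌊(⌈x⌉₊ : ℝ) ^ κ⌋₊ : ℕ) : ℝ) := by linarith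
  have hfpos : (0 : ℝ) < ((⌊(⌈x⌉₊ : ℝ) ^ κ⌋₊ : ℕ) : ℝ) := by linarith
  refine ⟨by linarith, ?_, ?_, ?_⟩
  · have : (m : ℝ) ≤ ((⌊(⌈x⌉₊ : ℝ) ^ κ⌋₊ : ℕ) : ℝ) := by linarith
    exact_mod_cast this
  · rw [← Real.log_rpow hx0]
    apply Real.log_le_log (by positivity)
    have e : x ^ κ = x ^ (κ / 2) * x ^ (κ / 2) := by
      rw [← Real.rpow_add hx0]
      congr 1
      ring
    nlinarith
  · calc Real.log (⌊(⌈x⌉₊ : ℝ) ^ κ⌋₊ : ℕ) ≤ Real.log ((⌈x⌉₊ : ℝ) ^ κ) := Real.log_le_log hfpos hle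
      _ = κ * Real.log (⌈x⌉₊ : ℝ) := Real.log_rpow hc0 κ
      _ ≤ κ * (2 * Real.log x) := by
          apply mul_le_mul_of_nonneg_left _ hκ.le
          have := Real.log_le_log hc0 hc3
          rw [Real.log_pow] at this
          exact_mod_cast this
      _ = _ := by ring

/-- the singular product against the sieve product -/
theorem compare (ℓ C : ℕ) (κ : ℝ) (hκ : 0 < κ) : ∃ a b : ℝ, 0 < a ∧ 0 < b ∧ ∀ᶠ x : ℝ in atTop,
    ∀ r : Fin ℓ → ℕ, Good r (Real.log x ^ C) →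
      a * (singular r / Real.log x ^ ℓ) ≤ VV (classes r) 0 ⌊(⌈x⌉₊ : ℝ) ^ κ⌋₊ ∧
      b * VV (classes r) 0 ⌊(⌈x⌉₊ : ℝ) ^ κ⌋₊ ≤ singular r / Real.log x ^ ℓ := by
  obtain ⟨C₁, hC₁, h1⟩ := sing_le ℓ
  obtain ⟨c₁, y₀, hc₁, h2⟩ := sing_ge ℓ
  refine ⟨1 / (C₁ * (2 * κ) ^ ℓ), c₁ * (κ / 2) ^ ℓ, by positivity, by positivity, ?_⟩
  filter_upwards [sizes C κ hκ (y₀ + ℓ + 2), eventually_gt_atTop (2 : ℝ)] with x hx hx2
  intro r hr
  obtain ⟨s1, s2, s3, s4⟩ := hx
  obtain ⟨y, hy⟩ : ∃ y, y = ⌊(⌈x⌉₊ : ℝ) ^ κ⌋₊ := ⟨_, rfl⟩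
  rw [← hy] at s1 s2 s3 s4 ⊢
  have hlx : 0 < Real.log x := Real.log_pos (by linarith)
  have hly : 0 < Real.log y := Real.log_pos (by exact_mod_cast (by omega : 1 < y))
  have hbig : ∀ p : ℕ, p.Prime → y < p → (classes r p).card = ℓ := by
    intro p hp hyp
    apply classes_big r hr.1 hp
    intro j
    refine ⟨(hr.2.1 j).1, ?_⟩
    have h3 : (r j : ℝ) < y := (hr.2.1 j).2.trans_lt s1
    have h4 : r j < y := by exact_mod_cast h3
    omega
  have g1 := h1 (classes r) y (by omega) (by omega) (adm hr) hbig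
  have g2 := h2 (classes r) y (by omega) (adm hr) hbig
  rw [← sing_eq] at g1 g2
  have hV := Pool.Agent.X58.IV.VV_pos (adm hr) 0 y
  constructor
  · rw [div_mul_div_comm, one_mul, div_le_iff₀ (by positivity)]
    refine g1.trans ?_
    have h5 : Real.log y ^ ℓ ≤ (2 * κ) ^ ℓ * Real.log x ^ ℓ := by
      rw [← mul_pow]
      exact pow_le_pow_left₀ hly.le s4 ℓ
    calc C₁ * Real.log y ^ ℓ * VV (classes r) 0 y ≤
        C₁ * ((2 * κ) ^ ℓ * Real.log x ^ ℓ) * VV (classes r) 0 y := by gcongr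
      _ = _ := by ring
  · rw [le_div_iff₀ (by positivity)]
    refine le_trans ?_ g2
    have h5 : (κ / 2) ^ ℓ * Real.log x ^ ℓ ≤ Real.log y ^ ℓ := by
      rw [← mul_pow]
      exact pow_le_pow_left₀ (by positivity) s3 ℓ
    calc c₁ * (κ / 2) ^ ℓ * VV (classes r) 0 y * Real.log x ^ ℓ =
        c₁ * ((κ / 2) ^ ℓ * Real.log x ^ ℓ) * VV (classes r) 0 y := by ring
      _ ≤ _ := by gcongr

open Classical in
lemma mem_almost {ℓ : ℕ} {r : Fin ℓ → ℕ} {R : ℕ} {w x : ℝ} {q : ℕ} (h : q ∈ almost r R w x) :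
    q ∈ dyadic x ∧ ∀ j, ∀ p : ℕ, p.Prime → p ∣ q * r j + 1 → w < p := by
  unfold almost at h
  rw [mem_filter] at h
  exact ⟨h.1, fun j => (h.2 j).2⟩

/-- the relative theorem -/
theorem rel (ℓ C k : ℕ) (κ δ : ℝ) (hκ : 0 < κ) (hδ : 0 < δ) :
    ∃ (B : ℕ) (c : ℝ), 0 < c ∧ ∀ᶠ x : ℝ in atTop, ∀ r : Fin ℓ → ℕ, Good r (Real.log x ^ C) →
      ∀ P ⊆ dyadic x, (∀ q ∈ P, ∀ j, ∀ p : ℕ, p.Prime → p ∣ q * r j + 1 → x ^ κ < p) →
      δ * x * (singular r / Real.log x ^ ℓ) ≤ P.card →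
      Popular k B c x (singular r / Real.log x ^ ℓ) P := by
  classical
  obtain ⟨κ', hκ'0, hκ'1⟩ : ∃ κ' : ℝ, 0 < κ' ∧ κ' ≤ κ / 2 := ⟨κ / 2, by positivity, le_rfl⟩
  obtain ⟨a, b, ha, hb, hcmp⟩ := compare ℓ C κ' hκ'0
  obtain ⟨B, X₀, c, hc, hcnt⟩ := cnt k ℓ κ' (δ * b / 2) hκ'0 (by positivity)
  obtain ⟨b', hb'⟩ : ∃ b', b' = min b 1 := ⟨_, rfl⟩
  have hb'0 : 0 < b' := by rw [hb']; exact lt_min hb one_pos
  obtain ⟨a', ha'⟩ : ∃ a', a' = min a 1 := ⟨_, rfl⟩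
  have ha'0 : 0 < a' := by rw [ha']; exact lt_min ha one_pos
  have ha'1 : a' ≤ 1 := by rw [ha']; exact min_le_right _ _
  have ha'2 : a' ≤ a := by rw [ha']; exact min_le_left _ _
  refine ⟨B + 1, c * a' ^ k, by positivity, ?_⟩
  have tC : Tendsto (fun x : ℝ => ⌈x⌉₊) atTop atTop := tendsto_nat_ceil_atTop
  filter_upwards [hcmp, tC.eventually_ge_atTop X₀, eventually_gt_atTop (3 : ℝ),
    Real.tendsto_log_atTop.eventually_ge_atTop (2 ^ B)] with x hcmp hX0 hx3 hlB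
  intro r hr P hP hrough hcard D hD1 hD2
  obtain ⟨V, hV⟩ : ∃ V, V = singular r / Real.log x ^ ℓ := ⟨_, rfl⟩
  obtain ⟨g1, g2⟩ := hcmp r hr
  rw [← hV] at hcard g1 g2 ⊢
  obtain ⟨X, hX⟩ : ∃ X, X = ⌈x⌉₊ := ⟨_, rfl⟩
  rw [← hX] at hX0 g1 g2
  have hx0 : 0 < x := by linarith
  have hx1 : 1 < x := by linarith
  have hlx : 0 < Real.log x := Real.log_pos hx1
  have hlx1 : 1 ≤ Real.log x := le_trans (one_le_pow₀ (by norm_num)) hlB
  have hXx : x ≤ X := by rw [hX]; exact Nat.le_ceil x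
  have hXx2 : (X : ℝ) < x + 1 := by rw [hX]; exact Nat.ceil_lt_add_one hx0.le
  have hX2x : (X : ℝ) ≤ 2 * x := by linarith
  have hXp : (0 : ℝ) < X := by linarith
  have hX1 : (1 : ℝ) < X := by linarith
  have hXsq : (X : ℝ) ≤ x ^ 2 := by nlinarith
  have hlX0 : 0 < Real.log X := Real.log_pos hX1
  have hlX1 : Real.log X ≤ 2 * Real.log x := by
    have := Real.log_le_log hXp hXsq
    rw [Real.log_pow] at this
    exact_mod_cast this
  obtain ⟨W, hW⟩ : ∃ W, W = VV (classes r) 0 ⌊(X : ℝ) ^ κ'⌋₊ := ⟨_, rfl⟩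
  have hWpos : 0 < W := by rw [hW]; exact Pool.Agent.X58.IV.VV_pos (adm hr) 0 _
  rw [← hW] at g1 g2
  have hVpos : 0 < V := lt_of_lt_of_le (by positivity) g2
  have hXpos : 0 < X := by exact_mod_cast hXp
  have hsub : P ⊆ Ioc (X - 1) (X - 1 + X) := by
    intro q hq
    obtain ⟨h1, h2⟩ := mem_dyadic.1 (hP hq)
    have h3 : X ≤ q := by rw [hX]; exact Nat.ceil_le.2 h1
    have h4 : (q : ℝ) < ((2 * X : ℕ) : ℝ) := by push_cast; linarith
    have h5 : q < 2 * X := by exact_mod_cast h4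
    rw [mem_Ioc]
    omega
  have hpow : (X : ℝ) ^ κ' < x ^ κ := by
    calc (X : ℝ) ^ κ' ≤ (X : ℝ) ^ (κ / 2) := Real.rpow_le_rpow_of_exponent_le hX1.le hκ'1
      _ < (x ^ (2 : ℝ)) ^ (κ / 2) := by
          apply Real.rpow_lt_rpow hXp.le _ (by linarith)
          rw [Real.rpow_two]
          nlinarith
      _ = x ^ κ := by
          rw [← Real.rpow_mul hx0.le]
          congr 1
          ring
  have key := hcnt X (X - 1) hX0 (classes r) (fun p hp _ => adm hr p hp) P hsub (by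
    intro q hq p hp hpX hmem
    rw [mem_classes r hp] at hmem
    obtain ⟨j, hj⟩ := hmem
    have h1 := hrough q hq j p hp hj
    linarith) (by
    rw [← hW]
    refine le_trans ?_ hcard
    calc δ * b / 2 * X * W = δ * (X / 2) * (b * W) := by ring
      _ ≤ δ * x * V := by
          have : (X : ℝ) / 2 ≤ x := by linarith
          gcongr) D (by
    refine le_trans ?_ hD1
    calc Real.log X ^ B ≤ (2 * Real.log x) ^ B := pow_le_pow_left₀ hlX0.le hlX1 B
      _ = 2 ^ B * Real.log x ^ B := mul_pow _ _ _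
      _ ≤ Real.log x * Real.log x ^ B := by gcongr
      _ = Real.log x ^ (B + 1) := by ring) (by
    refine le_trans ?_ (hD2.trans hXx)
    apply mul_le_mul_of_nonneg_left _ (Nat.cast_nonneg _)
    calc Real.log X ^ B ≤ (2 * Real.log x) ^ B := pow_le_pow_left₀ hlX0.le hlX1 B
      _ = 2 ^ B * Real.log x ^ B := mul_pow _ _ _
      _ ≤ Real.log x * Real.log x ^ B := by gcongr
      _ = Real.log x ^ (B + 1) := by ring)
  rw [← hW] at key
  have hak : a' ^ k ≤ 1 := pow_le_one₀ ha'0.le ha'1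
  calc c * a' ^ k * D ≤ c * D := by
        apply mul_le_mul_of_nonneg_right _ (Nat.cast_nonneg _)
        nlinarith
    _ ≤ _ := key
    _ ≤ _ := by
        apply Nat.cast_le.2
        apply card_le_card
        intro d hd
        rw [mem_filter] at hd ⊢
        refine ⟨hd.1, fun F hF h0 => ?_⟩
        have h1 := hd.2 F hF h0
        unfold occurrences
        refine le_trans ?_ h1
        have hFk : F.card ≤ k := by
          have := card_le_card hF
          rwa [card_range] at this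
        have h2 : a' ^ k * V ^ F.card ≤ W ^ F.card := by
          calc a' ^ k * V ^ F.card ≤ a' ^ F.card * V ^ F.card := by
                apply mul_le_mul_of_nonneg_right _ (by positivity)
                exact pow_le_pow_of_le_one ha'0.le ha'1 hFk
            _ = (a' * V) ^ F.card := (mul_pow _ _ _).symm
            _ ≤ W ^ F.card := by
                apply pow_le_pow_left₀ (by positivity)
                calc a' * V ≤ a * V := by gcongr
                  _ ≤ W := g1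
        calc c * a' ^ k * x * V ^ F.card = c * x * (a' ^ k * V ^ F.card) := by ring
          _ ≤ c * X * W ^ F.card := by gcongr

open Classical in
/-- many almost primes -/
theorem many (ℓ C : ℕ) : ∃ (R : ℕ) (c : ℝ), 1 ≤ R ∧ 0 < c ∧ ∀ᶠ x : ℝ in atTop, ∀ r : Fin ℓ → ℕ,
    Good r (Real.log x ^ C) →
      c * x * (singular r / Real.log x ^ ℓ) ≤ ((almost r R (x ^ (1 / (R : ℝ))) x).card : ℝ) := by
  obtain ⟨κ, c, hκ, hκ1, hc, X₀, hlow⟩ := Pool.Agent.X58.IV.lowZ ℓ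
  obtain ⟨a, b, ha, hb, hcmp⟩ := compare ℓ C κ hκ
  obtain ⟨R, hR⟩ : ∃ R : ℕ, R = ⌈6 / κ⌉₊ + 1 := ⟨_, rfl⟩
  have hR1 : 1 ≤ R := by omega
  have hR0 : (0 : ℝ) < R := by exact_mod_cast hR1
  have hRκ : 6 / κ ≤ R := by
    rw [hR]
    push_cast
    have := Nat.le_ceil (6 / κ)
    linarith
  have hRκ' : 6 ≤ R * κ := by
    rw [div_le_iff₀ hκ] at hRκ
    exact hRκ
  refine ⟨R, c * a / 2, hR1, by positivity, ?_⟩
  have tC : Tendsto (fun x : ℝ => ⌊x⌋₊) atTop atTop := tendsto_nat_floor_atTop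
  have ev1 : ∀ᶠ x : ℝ in atTop, Real.log x ^ C ≤ x ^ (1 : ℝ) := by
    have h1 : Tendsto (fun x : ℝ => Real.log x ^ (C : ℝ) / x ^ (1 : ℝ)) atTop (nhds 0) :=
      (isLittleO_log_rpow_rpow_atTop (C : ℝ) one_pos).tendsto_div_nhds_zero
    filter_upwards [h1.eventually_le_const (show (0 : ℝ) < 1 by norm_num),
      eventually_gt_atTop (0 : ℝ)] with x hx hx0
    have h6 : 0 < x ^ (1 : ℝ) := by positivity
    rw [div_le_iff₀ h6, Real.rpow_natCast, one_mul] at hx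
    exact hx
  filter_upwards [hcmp, tC.eventually_ge_atTop X₀, eventually_gt_atTop (4 : ℝ), ev1] with x hcmp hX0 hx4 hlC
  intro r hr
  rw [Real.rpow_one] at hlC
  obtain ⟨V, hV⟩ : ∃ V, V = singular r / Real.log x ^ ℓ := ⟨_, rfl⟩
  obtain ⟨g1, g2⟩ := hcmp r hr
  rw [← hV] at g1 g2 ⊢
  obtain ⟨X, hX⟩ : ∃ X, X = ⌈x⌉₊ := ⟨_, rfl⟩
  obtain ⟨Y, hY⟩ : ∃ Y, Y = ⌊x⌋₊ := ⟨_, rfl⟩
  rw [← hX] at g1 g2
  rw [← hY] at hX0
  have hx0 : 0 < x := by linarith
  have hx1 : 1 < x := by linarith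
  have hXx : x ≤ X := by rw [hX]; exact Nat.le_ceil x
  have hXx2 : (X : ℝ) < x + 1 := by rw [hX]; exact Nat.ceil_lt_add_one hx0.le
  have hYx : (Y : ℝ) ≤ x := by rw [hY]; exact Nat.floor_le hx0.le
  have hYx2 : x < (Y : ℝ) + 1 := by rw [hY]; exact Nat.lt_floor_add_one x
  have hY2 : x / 2 ≤ Y := by linarith
  have hYX : (Y : ℝ) ≤ X := hYx.trans hXx
  have hY0 : (0 : ℝ) < Y := by linarith
  have hYs : x ^ (1 / 2 : ℝ) ≤ Y := by
    refine le_trans ?_ hY2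
    rw [← Real.sqrt_eq_rpow, Real.sqrt_le_left (by linarith)]
    nlinarith
  have hcnt := hlow Y (X - 1) hX0 (classes r) (adm hr)
  have hVV : VV (classes r) 0 ⌊(X : ℝ) ^ κ⌋₊ ≤ VV (classes r) 0 ⌊(Y : ℝ) ^ κ⌋₊ := by
    apply Pool.Agent.X58.IV.VV_anti (adm hr)
    exact Nat.floor_mono (Real.rpow_le_rpow hY0.le hYX hκ.le)
  have hV0 : 0 ≤ V := (mul_nonneg hb.le (Pool.Agent.X58.IV.VV_pos (adm hr) 0 _).le).trans g2
  have hYκ : x ^ (κ / 2) ≤ (Y : ℝ) ^ κ := by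
    calc x ^ (κ / 2) = (x ^ (1 / 2 : ℝ)) ^ κ := by
          rw [← Real.rpow_mul hx0.le]
          congr 1
          ring
      _ ≤ _ := Real.rpow_le_rpow (by positivity) hYs hκ.le
  have hsub : Sift (classes r) κ (X - 1) Y ⊆ almost r R (x ^ (1 / (R : ℝ))) x := by
    intro q hq
    unfold Sift at hq
    rw [mem_filter, mem_Ioc] at hq
    obtain ⟨⟨hq1, hq2⟩, hq3⟩ := hq
    have hXp : 0 < X := by
      have : (0 : ℝ) < X := by linarith
      exact_mod_cast this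
    have hqX : X ≤ q := by omega
    have hqr : (X : ℝ) ≤ q := by exact_mod_cast hqX
    have hq4 : q + 1 ≤ X + Y := by omega
    have hq4r : (q : ℝ) + 1 ≤ X + Y := by exact_mod_cast hq4
    have hq2x : (q : ℝ) < 2 * x := by linarith
    unfold almost
    rw [mem_filter, mem_dyadic]
    refine ⟨⟨by linarith, hq2x⟩, fun j => ?_⟩
    have hrough : ∀ p : ℕ, p.Prime → p ∣ q * r j + 1 → x ^ (κ / 2) < p := by
      intro p hp hd
      by_contra hcon
      push Not at hcon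
      exact hq3 p hp (hcon.trans hYκ) ((mem_classes r hp q).2 ⟨j, hd⟩)
    have hz : x ^ (1 / (R : ℝ)) ≤ x ^ (κ / 2) := by
      apply Real.rpow_le_rpow_of_exponent_le hx1.le
      rw [div_le_iff₀ hR0]
      linarith
    refine ⟨?_, fun p hp hd => lt_of_le_of_lt hz (hrough p hp hd)⟩
    apply Pool.Agent.W123.RU.length_le _ R (by omega) (x ^ (κ / 2)) hrough _
      (Real.one_le_rpow hx1.le (by positivity))
    have h1 : (r j : ℝ) ≤ x := (hr.2.1 j).2.trans hlC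
    have hr0 : (0 : ℝ) ≤ r j := Nat.cast_nonneg _
    have h2 : ((q * r j + 1 : ℕ) : ℝ) ≤ x ^ (3 : ℝ) := by
      push_cast
      have e3 : x ^ (3 : ℝ) = x * x * x := by
        rw [show (3 : ℝ) = ((3 : ℕ) : ℝ) by norm_num, Real.rpow_natCast]
        ring
      rw [e3]
      have h3 : (q : ℝ) * r j ≤ 2 * x * x := by
        apply mul_le_mul hq2x.le h1 hr0 (by linarith)
      nlinarith
    refine h2.trans ?_
    rw [← Real.rpow_natCast, ← Real.rpow_mul hx0.le]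
    apply Real.rpow_le_rpow_of_exponent_le hx1.le
    push_cast
    nlinarith
  have hfin : c * Y * VV (classes r) 0 ⌊(Y : ℝ) ^ κ⌋₊ ≤
      ((almost r R (x ^ (1 / (R : ℝ))) x).card : ℝ) := by
    refine hcnt.trans ?_
    exact_mod_cast card_le_card hsub
  refine le_trans ?_ hfin
  have hVp := (Pool.Agent.X58.IV.VV_pos (adm hr) 0 ⌊(Y : ℝ) ^ κ⌋₊).le
  calc c * a / 2 * x * V = c * (x / 2) * (a * V) := by ring
    _ ≤ c * Y * VV (classes r) 0 ⌊(Y : ℝ) ^ κ⌋₊ := by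
        apply mul_le_mul _ (g1.trans hVV) (by positivity) (by positivity)
        gcongr

/-- **Tuplets `q r_j + 1`: popular differences, uniformly in the `r_j`.** -/
theorem result (ℓ C : ℕ) :
    (∀ (k : ℕ) (κ δ : ℝ), 0 < κ → 0 < δ → ∃ (B : ℕ) (c : ℝ), 0 < c ∧ ∀ᶠ x : ℝ in atTop,
      ∀ r : Fin ℓ → ℕ, Good r (Real.log x ^ C) →
      ∀ P ⊆ dyadic x, (∀ q ∈ P, ∀ j, ∀ p : ℕ, p.Prime → p ∣ q * r j + 1 → x ^ κ < p) →
      δ * x * (singular r / Real.log x ^ ℓ) ≤ P.card →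
      Popular k B c x (singular r / Real.log x ^ ℓ) P) ∧
    ∃ R : ℕ, 1 ≤ R ∧ ∀ k : ℕ, ∃ (B : ℕ) (c : ℝ), 0 < c ∧ ∀ᶠ x : ℝ in atTop,
      ∀ r : Fin ℓ → ℕ, Good r (Real.log x ^ C) →
      c * x * (singular r / Real.log x ^ ℓ) ≤ ((almost r R (x ^ (1 / (R : ℝ))) x).card : ℝ) ∧
      Popular k B c x (singular r / Real.log x ^ ℓ) (almost r R (x ^ (1 / (R : ℝ))) x) := by
  refine ⟨fun k κ δ h1 h2 => rel ℓ C k κ δ h1 h2, ?_⟩
  obtain ⟨R, c₁, hR, hc₁, hmany⟩ := many ℓ C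
  have hR0 : (0 : ℝ) < R := by exact_mod_cast hR
  refine ⟨R, hR, fun k => ?_⟩
  obtain ⟨B, c₂, hc₂, hrel⟩ := rel ℓ C k (1 / (R : ℝ)) c₁ (by positivity) hc₁
  refine ⟨B, min c₁ c₂, lt_min hc₁ hc₂, ?_⟩
  filter_upwards [hmany, hrel, eventually_gt_atTop (1 : ℝ)] with x h1 h2 hx1
  intro r hr
  have h3 := h1 r hr
  have h4 := h2 r hr (almost r R (x ^ (1 / (R : ℝ))) x) (by
    intro q hq
    exact (mem_almost hq).1) (by
    intro q hq j p hp hd
    exact (mem_almost hq).2 j p hp hd) h3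
  have hlx : 0 < Real.log x := Real.log_pos hx1
  have hS : 0 ≤ singular r := by
    rw [sing_eq]
    obtain ⟨y, hy⟩ : ∃ y : ℕ, y = ∑ j, r j := ⟨_, rfl⟩
    apply sing_pos (adm hr) (y := y)
    intro p hp hyp
    apply classes_big r hr.1 hp
    intro j
    have h5 : r j ≤ ∑ j, r j := single_le_sum (fun _ _ => Nat.zero_le _) (Finset.mem_univ j)
    exact ⟨(hr.2.1 j).1, by omega⟩
  have hV : 0 ≤ singular r / Real.log x ^ ℓ := by positivity
  have hx0 : 0 < x := by linarith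
  refine ⟨?_, fun D hD1 hD2 => ?_⟩
  · refine le_trans ?_ h3
    have : min c₁ c₂ ≤ c₁ := min_le_left _ _
    gcongr
  · have h5 := h4 D hD1 hD2
    have hmin : min c₁ c₂ ≤ c₂ := min_le_right _ _
    calc min c₁ c₂ * D ≤ c₂ * D := mul_le_mul_of_nonneg_right hmin (Nat.cast_nonneg _)
      _ ≤ _ := h5
      _ ≤ _ := by
          apply Nat.cast_le.2
          apply card_le_card
          intro d hd
          rw [mem_filter] at hd ⊢
          refine ⟨hd.1, fun F hF h0 => le_trans ?_ (hd.2 F hF h0)⟩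
          gcongr

end Pool.Agent.Results.MP_d018b2_nt.PopularDifferences
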