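import Pool.Agent.R490.Prog

set_option autoImplicit false

/-!
# Regular points of the sets of `q` with `q r_1 + 1, …, q r_ℓ + 1` prime, uniformly in the `r_j`

The set of the `q` for which all `q r_j + 1` are prime should have density of order
`V = ∏ (1 - w(p) / p)` (the product over the primes `p ≤ x ^ (1 / r)`, with the `w(p)` of the problem) around
its elements.  The theorem says, for ALL sets of `ℓ ≥ 2` positive integers `r_j ≤ x ^ A` and ALL intervals of
length `x ^ θ ≤ Y ≤ x`: all but at most `ε Y V` elements `m` of this set `S` - or of ANY subset - are regular points: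
all intervals around `m` up to the length `Y` contain the right order of elements of `S`, and for all but a bounded
number of scales `2 ^ j ≤ Y` the set `S` has an almost constant density on both sides of `m`.
-/

namespace Pool.Agent.Results.MP_d018b2_nt.RegularPoints

open Finset Filter

/-- No `q r + 1`, `r ∈ T`, has a prime factor `≤ z`. -/
def Good (T : Finset ℕ) (z q : ℕ) : Prop := ∀ p : ℕ, p.Prime → p ≤ z → ∀ r ∈ T, ¬ p ∣ q * r + 1

open Classical in
/-- The number of the residue classes `q mod p` for which `p` divides some `q r + 1`, `r ∈ T`. -/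
noncomputable def w (T : Finset ℕ) (p : ℕ) : ℕ := ((range p).filter (fun q => ∃ r ∈ T, p ∣ q * r + 1)).card

/-- The product of `1 - w(p) / p` over the primes `p ≤ z`. -/
noncomputable def V (T : Finset ℕ) (z : ℕ) : ℝ :=
  ∏ p ∈ (range (z + 1)).filter Nat.Prime, (1 - (w T p : ℝ) / p)

open Classical in
/-- The number of elements of `S` in `(a, b]`. -/
noncomputable def count (S : Set ℕ) (a b : ℕ) : ℕ := ((Finset.Ioc a b).filter (fun m => m ∈ S)).card

/-- All intervals `(m - s, m + t]` with `s, t ≤ Y` of length at least `L / κ` contain between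
`κ (s + t) / L` and `(s + t) / (κ L)` elements of `S`. -/
def RightOrder (S : Set ℕ) (L κ : ℝ) (Y m : ℕ) : Prop :=
  ∀ s t : ℕ, s ≤ Y → t ≤ Y → L ≤ κ * (s + t) →
    κ * (s + t) / L ≤ count S (m - s) (m + t) ∧ (count S (m - s) (m + t) : ℝ) ≤ (s + t) / (κ * L)

/-- Up to `δ`, `S` has a constant density on both sides of `m` up to the distance `2 ^ j`. -/
def ConstantDensity (S : Set ℕ) (L κ δ : ℝ) (m j : ℕ) : Prop :=
  ∃ lam : ℝ, κ ≤ lam ∧ lam ≤ 1 / κ ∧ ∀ s t : ℕ, s ≤ 2 ^ j → t ≤ 2 ^ j →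
    |(count S (m - s) (m + t) : ℝ) - lam * (s + t) / L| ≤ δ * 2 ^ j / L

open Classical in
/-- The number of the scales `L ≤ 2 ^ j ≤ Y` without this property. -/
noncomputable def badScales (S : Set ℕ) (L κ δ : ℝ) (Y m : ℕ) : ℕ :=
  ((Finset.range (Nat.log 2 Y + 1)).filter (fun j => L ≤ (2 : ℝ) ^ j ∧ ¬ ConstantDensity S L κ δ m j)).card

/-- The elements of `S` that are not regular points of `S`. -/
def Irregular (S : Set ℕ) (L κ δ : ℝ) (M Y : ℕ) : Set ℕ :=
  {m | m ∈ S ∧ ¬ (RightOrder S L κ Y m ∧ badScales S L κ δ Y m ≤ M)}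

/-- the relation to the condition in the library -/
def g (T : Finset ℕ) (p m : ℕ) : Prop := ∃ r ∈ T, p ∣ m * r + 1

lemma good_iff (T : Finset ℕ) (z m : ℕ) : Pool.Agent.R490.Pg.Ro (g T) z m ↔ Good T z m := by
  unfold Pool.Agent.R490.Pg.Ro Good g
  constructor
  · intro h p hp hz r hr hd
    exact h p hp hz ⟨r, hr, hd⟩
  · rintro h p hp hz ⟨r, hr, hd⟩
    exact h p hp hz r hr hd

open Classical in
lemma V_eq (T : Finset ℕ) (z : ℕ) : Pool.Agent.R490.Pg.De (g T) z = V T z := by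
  unfold Pool.Agent.R490.Pg.De V w g
  apply Finset.prod_congr rfl
  intro p _
  congr!

/-- **Regular points of arbitrary sets of tuplets.** Let `ℓ ≥ 2`. (1) If `q ≥ z` and all `q r_j + 1` are prime,
`q` is good. (2) For all `A` and `θ > 0` there is `r0` such that for `r ≥ r0` and `ε > 0` there is `κ > 0`, and for
`δ > 0` there is `M`, such that for all large `x`, `z = x ^ (1 / r)`, ALL sets `T` of `ℓ` positive integers
`≤ x ^ A`, ALL intervals `(u, u + Y]` with `x ^ θ ≤ Y ≤ x`, `Y ≤ u`, and EVERY set `S` of good `q`, for instance the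
set of all `q ≥ z` for which all `q r_j + 1` are prime, or any subset: all but at most `ε Y V` of the elements of
`S` in `(u, u + Y]` are regular points of `S` (with `L = 1 / V`). -/
theorem result :
    (∀ (T : Finset ℕ) (z q : ℕ), (∀ a ∈ T, 1 ≤ a) → z ≤ q → (∀ a ∈ T, (q * a + 1).Prime) → Good T z q) ∧
    ∀ (ℓ A : ℕ), 2 ≤ ℓ → ∀ θ : ℝ, 0 < θ →
    ∃ r0 : ℕ, 2 ≤ r0 ∧ ∀ r : ℕ, r0 ≤ r → ∀ ε : ℝ, 0 < ε → ∃ κ : ℝ, 0 < κ ∧
      ∀ δ : ℝ, 0 < δ → ∃ M : ℕ, ∀ᶠ x : ℕ in atTop, ∀ z : ℕ, z = ⌊(x : ℝ) ^ (1 / (r : ℝ))⌋₊ →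
      ∀ T : Finset ℕ, T.card = ℓ → (∀ a ∈ T, 1 ≤ a ∧ a ≤ x ^ A) →
      ∀ u Y : ℕ, (x : ℝ) ^ θ ≤ Y → Y ≤ x → Y ≤ u → ∀ S : Set ℕ, (∀ q ∈ S, Good T z q) →
        (count (Irregular S (1 / V T z) κ δ M Y) u (u + Y) : ℝ) ≤ ε * (Y * V T z) := by
  refine ⟨?_, ?_⟩
  · intro T z q h1 hzq hq p hp hpz a ha hd
    have h2 := (Nat.prime_dvd_prime_iff_eq hp (hq a ha)).1 hd
    have h3 : q * 1 ≤ q * a := Nat.mul_le_mul_left _ (h1 a ha)
    omega
  · intro ℓ A hℓ θ hθ
    obtain ⟨r0, hr0, h0⟩ := Pool.Agent.R490.Pg.regR ℓ A hℓ θ hθ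
    refine ⟨r0, hr0, fun r hr ε hε => ?_⟩
    obtain ⟨κ, hκ, h1⟩ := h0 r hr ε hε
    refine ⟨κ, hκ, fun δ hδ => ?_⟩
    obtain ⟨M, h2⟩ := h1 δ hδ
    refine ⟨M, ?_⟩
    filter_upwards [h2, eventually_ge_atTop 1] with x hx hx1
    intro z hz T hT hT1 u Y hY hYx hYu S hS
    have h3 := hx (Pool.Agent.R490.Pg.fr T) (g T) ((Pool.Agent.R490.Pg.fr_card T).trans hT)
      (Pool.Agent.R490.Pg.fr_rep T)
      (Pool.Agent.R490.Pg.fr_good (x ^ A) T (Nat.one_le_pow _ _ hx1) (fun a ha => (hT1 a ha).1)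
        (fun a ha => (hT1 a ha).2))
      u Y hY hYx hYu S (fun m hm => (good_iff T _ m).2 (by rw [← hz]; exact hS m hm))
    rw [V_eq, ← hz] at h3
    exact h3

end Pool.Agent.Results.MP_d018b2_nt.RegularPoints
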