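import Pool.Agent.R490.Prog
import Pool.Agent.L5helper4.RG.Om

set_option autoImplicit false

/-!
# The law of the spacings of the almost prime tuplets `q r_1 + 1, …, q r_ℓ + 1`, uniformly in the `r_j`

For `ℓ ≥ 2` and `z = x ^ (1 / r)` let `q` be called good if none of the `q r_j + 1` has a prime factor
`≤ z`; then for `q ≤ x` they have at most `(A + 2) r` prime factors if `r_j ≤ x ^ A`.  The density of the good
`q` is `V = ∏ (1 - w(p) / p)` over the primes `p ≤ z`, with the `w(p)` of the problem.  If `r` is large, then in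
EVERY interval of length at least `x ^ θ` and for ALL sets of `ℓ` positive integers `r_j ≤ x ^ A` the distances
of the good `q` to the `k`-th preceding good integer have, in units of `1 / V`, the distribution belonging to a
Poisson process up to `ε`.  (For `k = 1`, `t = 0` this is the asymptotic number of the good `q`.)

The problem asks for the number of the `q` for which all `q r_j + 1` are prime, for the `r_j ≤ b log x`.
-/

namespace Pool.Agent.Results.MP_d018b2_nt.SpacingLaw

open Finset Filter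

/-- No `q r + 1`, `r ∈ T`, has a prime factor `≤ z`. -/
def Good (T : Finset ℕ) (z q : ℕ) : Prop := ∀ p : ℕ, p.Prime → p ≤ z → ∀ r ∈ T, ¬ p ∣ q * r + 1

open Classical in
/-- The number of the residue classes `q mod p` for which `p` divides some `q r + 1`, `r ∈ T`. -/
noncomputable def w (T : Finset ℕ) (p : ℕ) : ℕ := ((range p).filter (fun q => ∃ r ∈ T, p ∣ q * r + 1)).card

/-- The product of `1 - w(p) / p` over the primes `p ≤ z`. -/
noncomputable def V (T : Finset ℕ) (z : ℕ) : ℝ :=
  ∏ p ∈ (range (z + 1)).filter Nat.Prime, (1 - (w T p : ℝ) / p)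

open Classical in
/-- The number of the good `q` in `(u, u + Y]` for which fewer than `k` of the `t` integers before `q` are good,
that is, for which the distance from `q` to the `k`-th preceding good integer is larger than `t`. -/
noncomputable def N (T : Finset ℕ) (z k t u Y : ℕ) : ℕ :=
  ((Ioc u (u + Y)).filter (fun q => Good T z q ∧ ((Ico (q - t) q).filter (fun m => Good T z m)).card < k)).card

/-- the relation to the condition in the library -/
def g (T : Finset ℕ) (p m : ℕ) : Prop := ∃ r ∈ T, p ∣ m * r + 1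

lemma good_iff (T : Finset ℕ) (z m : ℕ) : Pool.Agent.R490.Pg.Ro (g T) z m ↔ Good T z m := by
  unfold Pool.Agent.R490.Pg.Ro Good g
  constructor
  · intro h p hp hz r hr hd
    exact h p hp hz ⟨r, hr, hd⟩
  · rintro h p hp hz ⟨r, hr, hd⟩
    exact h p hp hz r hr hd

open Classical in
lemma V_eq (T : Finset ℕ) (z : ℕ) : Pool.Agent.R490.Pg.De (g T) z = V T z := by
  unfold Pool.Agent.R490.Pg.De V w g
  apply Finset.prod_congr rfl
  intro p _
  congr!

open Classical in
lemma N_eq (T : Finset ℕ) (z k t u Y : ℕ) : Pool.Agent.R490.Pg.Dk (g T) z k t u Y = N T z k t u Y := by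
  have e : Pool.Agent.R490.Pg.Ro (g T) z = fun m => Good T z m := by
    funext m
    exact propext (good_iff T z m)
  unfold Pool.Agent.R490.Pg.Dk N
  rw [e]

/-- **The law of the spacings of the almost prime tuplets.** Let `ℓ ≥ 2`.
(1) For a good `q ≤ x` and `r_j ≤ x ^ A` the numbers `q r_j + 1` have at most `(A + 2) r` prime factors.
(2) For all `A`, `θ > 0`, `K`, `x0` and `ε > 0` there is `r0` such that for every `r ≥ r0` and all large `x`, with
`z = x ^ (1 / r)`, for ALL sets `T` of `ℓ` positive integers `≤ x ^ A`, ALL intervals `(u, u + Y]` of length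
`Y ≥ x ^ θ` and all `k`, `t` with `k ≤ K` or `t V ≤ x0`: the number of the good `q` in the interval whose distance to
the `k`-th preceding good integer exceeds `t` is `Y V` times the probability that a Poisson variable with mean
`t V` is smaller than `k`, with an error of at most `ε Y V`. -/
theorem result :
    (∀ (A r x : ℕ), 1 ≤ r → 2 ≤ x → ∀ T : Finset ℕ, (∀ a ∈ T, a ≤ x ^ A) →
      ∀ q ≤ x, Good T ⌊(x : ℝ) ^ (1 / (r : ℝ))⌋₊ q →
        ∀ a ∈ T, (q * a + 1).primeFactorsList.length ≤ (A + 2) * r) ∧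
    ∀ (ℓ A : ℕ), 2 ≤ ℓ → ∀ θ : ℝ, 0 < θ → ∀ (K : ℕ) (x0 ε : ℝ), 0 < ε →
    ∃ r0 : ℕ, ∀ r : ℕ, r0 ≤ r → ∀ᶠ x : ℕ in atTop, ∀ z : ℕ, z = ⌊(x : ℝ) ^ (1 / (r : ℝ))⌋₊ →
      ∀ T : Finset ℕ, T.card = ℓ → (∀ a ∈ T, 1 ≤ a ∧ a ≤ x ^ A) →
      ∀ u Y : ℕ, (x : ℝ) ^ θ ≤ Y → ∀ k t : ℕ, (k ≤ K ∨ t * V T z ≤ x0) →
        |(N T z k t u Y : ℝ) - Y * V T z *
            ∑ j ∈ range k, Real.exp (-(t * V T z)) * (t * V T z) ^ j / j.factorial| ≤
          ε * (Y * V T z) := by
  refine ⟨?_, ?_⟩
  · intro A r x hr hx T hT q hq hg a ha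
    refine Pool.Agent.L5helper4.RG.few hx hr (Nat.succ_pos _) ?_ (fun p hp hd => ?_)
    · have h1 : q * a ≤ x * x ^ A := Nat.mul_le_mul hq (hT a ha)
      have h2 : 1 ≤ x ^ A := Nat.one_le_pow _ _ (by omega)
      calc q * a + 1 ≤ x * x ^ A + x ^ A := by omega
        _ ≤ x * x ^ A + x * x ^ A := by nlinarith
        _ = 2 * (x * x ^ A) := by ring
        _ ≤ x * (x * x ^ A) := Nat.mul_le_mul_right _ hx
        _ = x ^ (A + 2) := by ring
    · by_contra hle
      exact hg p hp (not_lt.1 hle) a ha hd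
  · intro ℓ A hℓ θ hθ K x0 ε hε
    obtain ⟨r0, h0⟩ := Pool.Agent.R490.Pg.gapR ℓ A hℓ θ hθ K x0 ε hε
    refine ⟨r0, fun r hr => ?_⟩
    filter_upwards [h0 r hr, eventually_ge_atTop 1] with x hx hx1
    intro z hz T hT hT1 u Y hY k t ht
    have h1 := hx (Pool.Agent.R490.Pg.fr T) (g T) ((Pool.Agent.R490.Pg.fr_card T).trans hT)
      (Pool.Agent.R490.Pg.fr_rep T)
      (Pool.Agent.R490.Pg.fr_good (x ^ A) T (Nat.one_le_pow _ _ hx1) (fun a ha => (hT1 a ha).1)
        (fun a ha => (hT1 a ha).2))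
      (Pool.Agent.R490.Pg.fr_noT T (fun a ha => (hT1 a ha).1)) u Y hY k t (by rw [V_eq, ← hz]; exact ht)
    rw [V_eq, N_eq, ← hz] at h1
    exact h1

end Pool.Agent.Results.MP_d018b2_nt.SpacingLaw
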