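import Pool.Agent.L5helper4.SR.Base

set_option autoImplicit false

/-!
# Strings of consecutive primes `q` for which all `q r_1 + 1, …, q r_ℓ + 1` are almost prime, uniformly in the `r_j`

Let `ℓ, m ≥ 1`. There are `K`, `B` and `δ > 0` and for every `A` a number `t` such that for every set `S`
of at least `K` shifts and all large `x` the following holds for ALL `1 ≤ r_1, …, r_ℓ ≤ x ^ A` for which
no prime divides `q (q r_1 + 1) ⋯ (q r_ℓ + 1)` for all `q`: for at least `x / (log x) ^ B` integers `n`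
between `x` and `2 x` the primes in `[n, n + max S]` are `n + s`, `s ∈ H`, where `H ⊆ S` has at least `m`
elements and does not depend on `n`, and for all these primes `q` the numbers `q r_1 + 1, …, q r_ℓ + 1`
have at most `t` prime factors, all at least `x ^ δ`.

The divisibility condition says that all `r_j` are even and that for the odd primes `p ≤ ℓ + 1` the `r_j` do not
represent all nonzero classes modulo `p`; for instance all `r_j` may be multiples of the product of the primes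
up to `ℓ + 1`.

The theorem of Maynard and Tao for primes with almost prime companions, uniformly in the polynomial, is in the
starting library (`Pool.Agent.R498.MP.stringsUR`, never handed in).
-/

namespace Pool.Agent.Results.MP_d018b2_nt.TupletsAtPrimeStrings

open Filter Polynomial
open Pool.Agent.R498.MP (APZ)
open Pool.Agent.L5helper4.SR

/-- `v` has at most `r` prime factors, counted with multiplicity, all of them at least `w`. -/
def AlmostPrime (r : ℕ) (w : ℝ) (v : ℕ) : Prop :=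
  v.primeFactorsList.length ≤ r ∧ ∀ p : ℕ, p.Prime → p ∣ v → w ≤ p

/-- no prime divides `q * ∏ (q * r j + 1)` for all integers `q` -/
def NoFixedDivisor {l : ℕ} (r : Fin l → ℕ) : Prop :=
  ∀ p : ℕ, p.Prime → ∃ q : ℤ, ¬ (p : ℤ) ∣ q * ∏ j, (q * r j + 1)

/-- multiples of all the primes up to `l + 1` -/
theorem noFixedDivisor_mult {l : ℕ} (r : Fin l → ℕ) (h : ∀ p : ℕ, p.Prime → p ≤ l + 1 → ∀ j, p ∣ r j) :
    NoFixedDivisor r := by
  classical
  intro p hp
  have hpi : Prime (p : ℤ) := Nat.prime_iff_prime_int.1 hp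
  by_cases hpl : p ≤ l + 1
  · refine ⟨1, fun h1 => ?_⟩
    rw [one_mul] at h1
    obtain ⟨j, _, hj⟩ := (Prime.dvd_finsetProd_iff hpi _).1 h1
    obtain ⟨c, hc⟩ := h p hp hpl j
    have h2 : (p : ℤ) ∣ (1 : ℤ) * (r j : ℤ) := by
      rw [hc, one_mul]
      push_cast
      exact dvd_mul_right _ _
    have h3 : (p : ℤ) ∣ 1 := (Int.dvd_add_right h2).1 hj
    exact hpi.not_unit (isUnit_of_dvd_one h3)
  · -- the classes `1, …, l + 1` are distinct and each form kills at most one of them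
    by_contra hcon
    push Not at hcon
    have h1 : ∀ i : Fin (l + 1), ∃ j : Fin l, (p : ℤ) ∣ ((i : ℕ) + 1 : ℤ) * r j + 1 := by
      intro i
      have h2 := hcon ((i : ℕ) + 1)
      rcases hpi.dvd_or_dvd h2 with h3 | h3
      · exfalso
        have h4 : (p : ℤ) ≤ (i : ℕ) + 1 := Int.le_of_dvd (by positivity) h3
        have h5 := i.2
        omega
      · obtain ⟨j, _, hj⟩ := (Prime.dvd_finsetProd_iff hpi _).1 h3
        exact ⟨j, hj⟩
    choose f hf using h1
    obtain ⟨i, i', hii, hfi⟩ := Fintype.exists_ne_map_eq_of_card_lt f (by simp)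
    have h2 := dvd_sub (hf i) (hfi ▸ hf i')
    have h3 : ((i : ℕ) + 1 : ℤ) * r (f i) + 1 - (((i' : ℕ) + 1 : ℤ) * r (f i) + 1) =
        ((i : ℕ) - (i' : ℕ) : ℤ) * r (f i) := by ring
    rw [h3] at h2
    have h4 : ¬ (p : ℤ) ∣ r (f i) := by
      intro h5
      have h6 := (Int.dvd_add_right (h5.mul_left ((i : ℕ) + 1 : ℤ))).1 (hf i)
      exact hpi.not_unit (isUnit_of_dvd_one h6)
    rcases hpi.dvd_or_dvd h2 with h5 | h5
    · have h6 : |((i : ℕ) - (i' : ℕ) : ℤ)| < p := by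
        have h7 := i.2
        have h8 := i'.2
        rw [abs_lt]
        constructor <;> omega
      have h7 := Int.eq_zero_of_abs_lt_dvd h5 h6
      exact hii (Fin.ext (by omega))
    · exact h4 h5

/-- **Strings of consecutive primes `q` with almost prime `q r_j + 1`, uniformly in the `r_j`.** -/
theorem result (l m : ℕ) :
    (∀ r : Fin l → ℕ, (∀ p : ℕ, p.Prime → p ≤ l + 1 → ∀ j, p ∣ r j) → NoFixedDivisor r) ∧
    ∃ (K B : ℕ) (δ : ℝ), 0 < δ ∧ ∀ A : ℕ, ∃ t : ℕ, ∀ S : Finset ℕ, K ≤ S.card →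
      ∀ᶠ x : ℕ in atTop, ∀ r : Fin l → ℕ, (∀ j, 1 ≤ r j ∧ r j ≤ x ^ A) → NoFixedDivisor r →
      ∃ H ⊆ S, m ≤ H.card ∧ ∃ T : Finset ℕ, (x : ℝ) ≤ Real.log x ^ B * T.card ∧
        ∀ n ∈ T, x < n ∧ n + S.sup id ≤ 2 * x ∧ (∀ y ≤ S.sup id, (n + y).Prime ↔ y ∈ H) ∧
          ∀ s ∈ H, ∀ j, AlmostPrime t ((x : ℝ) ^ δ) ((n + s) * r j + 1) := by
  refine ⟨noFixedDivisor_mult, ?_⟩
  obtain ⟨K, B, δ, hδ, h1⟩ := strings_fam l 1 1 squarefree_one m
  refine ⟨K, B, δ, hδ, fun A => ?_⟩
  obtain ⟨t, h2⟩ := h1 (A + 3)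
  refine ⟨t, fun S hS => ?_⟩
  filter_upwards [h2 S hS, eventually_ge_atTop 2] with x h3 hx2
  intro r hr hadm
  have hev : ∀ j, ∀ y : ℤ, (C (r j : ℤ) * X + 1 : ℤ[X]).eval y = y * r j + 1 := fun j y => by
    simp [mul_comm]
  have hx : (2 : ℤ) ≤ x := by exact_mod_cast hx2
  -- all `r j` are even
  have heven : ∀ j, (2 : ℤ) ∣ (r j : ℤ) := by
    intro j
    obtain ⟨y, hy⟩ := hadm 2 Nat.prime_two
    by_contra hodd
    apply hy
    push_cast
    rcases (by omega : (2 : ℤ) ∣ y ∨ (2 : ℤ) ∣ y + 1) with h4 | h4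
    · exact h4.mul_right _
    · refine Dvd.dvd.mul_left (Dvd.dvd.trans ?_ (Finset.dvd_prod_of_mem _ (Finset.mem_univ j))) _
      obtain ⟨u, hu⟩ := h4
      obtain ⟨v, hv⟩ : ∃ v : ℤ, (r j : ℤ) = 2 * v + 1 := ⟨(r j : ℤ) / 2, by omega⟩
      rw [hv]
      refine ⟨y * v + u, ?_⟩
      linear_combination hu
  obtain ⟨H, hHS, hHm, T, hT, h4⟩ := h3 (fun j => C (r j : ℤ) * X + 1) (by
      intro j
      compute_degree) (by
      intro p hp
      obtain ⟨y, hy⟩ := hadm p hp
      refine ⟨y, ?_⟩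
      simpa [hev, mul_comm] using hy) (by
      intro j y hy
      rw [hev]
      have h4 : |y * r j + 1| ≤ |y * r j| + |(1 : ℤ)| := abs_add_le _ _
      have h5 : |y * (r j : ℤ)| ≤ 2 * x * (x : ℤ) ^ A := by
        rw [abs_mul]
        refine mul_le_mul hy ?_ (abs_nonneg _) (by positivity)
        rw [Nat.abs_cast]
        exact_mod_cast (hr j).2
      have h6 : (1 : ℤ) ≤ (x : ℤ) ^ A := one_le_pow₀ (by linarith)
      have h7 : (2 : ℤ) * x + 1 ≤ (x : ℤ) ^ 3 := by
        have h8 : (4 : ℤ) ≤ (x : ℤ) ^ 2 := by nlinarith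
        have h9 : (x : ℤ) ^ 3 = (x : ℤ) ^ 2 * x := by ring
        nlinarith
      rw [pow_add, abs_one] at *
      nlinarith) (by
      intro j y hy0 _
      rw [hev]
      intro h4
      obtain ⟨v, hv⟩ := heven j
      rw [hv] at h4
      have h5 : (2 : ℤ) ∣ 1 := ⟨-(y * v), by linarith⟩
      norm_num at h5) 0 (by
      intro p hp hp1
      exact absurd (Nat.dvd_one.1 hp1) hp.one_lt.ne')
  refine ⟨H, hHS, hHm, T, hT, fun n hn => ?_⟩
  obtain ⟨h5, h6, h7, h8⟩ := h4 n hn
  refine ⟨h5, h6, h7, fun s hs j => ?_⟩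
  have h9 := (h8 s hs).2 j
  rw [hev] at h9
  have h10 : ((n + s : ℕ) : ℤ) * (r j : ℤ) + 1 = (((n + s) * r j + 1 : ℕ) : ℤ) := by push_cast; ring
  rw [h10] at h9
  exact apz_nat h9

end Pool.Agent.Results.MP_d018b2_nt.TupletsAtPrimeStrings
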